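import Pool.Agent.helper50.MA.SpecF

/-!
# PROJECT ma, module F9

The mass of the obstacle solution `a` sits on `{d ≤ r} ∩ {f j ≤ -N} ∩ {exp (-2 A N) ≤ S}`.
Uses F0, F3, F5, F6, F8.
-/

set_option autoImplicit false

open MeasureTheory Set Filter Topology
open scoped ContDiff Real

namespace MAP

noncomputable section

/-- locality on the diagonal -/
lemma F9_loc2 {X : Type} [TopologicalSpace X] [MeasurableSpace X] (T : MATh X) (u v : X → ℝ) (hu : u ∈ T.C0) (hv : v ∈ T.C0)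
    (U : Set X) (hU : IsOpen U) (h : ∀ x ∈ U, u x = v x) (B : Set X) (hB : MeasurableSet B) (hBU : B ⊆ U) :
    T.M u u B = T.M v v B := by
  rw [T.loc u hu v hv u hu U hU h B hB hBU, T.symm v hv u hu, T.loc u hu v hv v hv U hU h B hB hBU]

/-- the part close to the curve -/
lemma F9_near (h5 : F5_stmt) (X : Type) [TopologicalSpace X] [CompactSpace X] [T2Space X] [SecondCountableTopology X]
    [MeasurableSpace X] [BorelSpace X] (T : MATh X) (μ : Measure X) (cd : CurveD T μ) (a : X → ℝ) (ha : a ∈ T.C0)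
    (ha0 : ∀ x, a x ≤ 0) (N A : ℝ) (hN : 1 ≤ N) (hA : 1 ≤ A) (hNc : 2 * cd.c + 4 * T.V ≤ N * T.V) :
    (T.M a a).real {x | a x = -N ∧ cd.S x ≤ Real.exp (-2 * (A * N))} ≤ 5 * T.V / A := by
  have hAN : 1 ≤ A * N := by nlinarith
  have hcN : (fun _ : X => (-(N + 1) : ℝ)) ∈ T.C0 := T.ps_c0 (T.const_ps _)
  set v : X → ℝ := fun x => max (a x) (-(N + 1)) with hv
  have hvC : v ∈ T.C0 := T.max_mem a ha _ hcN
  have hac : Continuous a := T.cont a ha
  have hSc : Continuous cd.S := cd.S_cont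
  set B : Set X := {x | a x = -N ∧ cd.S x ≤ Real.exp (-2 * (A * N))} with hB
  have hBm : MeasurableSet B := by
    apply IsClosed.measurableSet
    exact (isClosed_eq hac continuous_const).inter (isClosed_le hSc continuous_const)
  have hU : IsOpen {x | -(N + 1) < a x} := isOpen_lt continuous_const hac
  have e1 : T.M a a B = T.M v v B := by
    refine F9_loc2 T a v ha hvC _ hU ?_ B hBm ?_
    · intro x hx
      have hx' : -(N + 1) < a x := hx
      show a x = max (a x) (-(N + 1))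
      rw [max_eq_left hx'.le]
    · rintro x ⟨hx1, _⟩
      show -(N + 1) < a x
      rw [hx1]; linarith
  have := T.fin v hvC v hvC
  have e2 : (T.M v v).real B ≤ (T.M v v).real {x | cd.S x ≤ Real.exp (-2 * (A * N))} :=
    measureReal_mono (fun x hx => hx.2)
  have e3 := h5 X T μ cd v hvC (N + 1) (A * N) (by linarith) hAN (fun x => le_max_right _ _)
    (fun x => max_le (ha0 x) (by linarith))
  have hVpos := T.V_pos
  have e4 : (2 / (A * N)) * (cd.c + 2 * (N + 1) * T.V) ≤ 5 * T.V / A := by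
    have hApos : 0 < A := by linarith
    have hNpos : 0 < N := by linarith
    rw [div_mul_eq_mul_div, div_le_div_iff₀ (by positivity) hApos]
    have : 2 * (cd.c + 2 * (N + 1) * T.V) ≤ 5 * T.V * N := by nlinarith
    nlinarith
  have e0 : (T.M a a).real B = (T.M v v).real B := by
    simp only [Measure.real, e1]
  linarith

theorem F9 (h0 : F0_stmt) (h3 : F3_stmt) (h5 : F5_stmt) (h6 : F6_stmt) (h8 : F8_stmt) : F9_stmt := by
  intro X _ _ _ _ _ _ T φ μ cd hD f hf hdec hf0 r hr hr1 A hA δ hδ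
  set D := (T.ld cd.p).d with hDdef
  have hDc : Continuous D := (T.ld cd.p).d_cont
  have hμf : IsFiniteMeasure μ := cd.fin
  have hball : {x | D x < r} ∈ T.Ball := (T.ld cd.p).ball r hr hr1
  obtain ⟨a, ha, hconv⟩ := h8 X T φ μ cd.fin hD f hf hdec hf0 _ hball
  have hSc : Continuous cd.S := cd.S_cont
  have hVpos := T.V_pos
  -- weak convergence along triples
  let l : Filter (ℕ × ℕ × ℕ) := comap (fun t : ℕ × ℕ × ℕ => min t.1 t.2.1) atTop
  have hl : ∀ n : ℕ, {t : ℕ × ℕ × ℕ | n ≤ t.1 ∧ n ≤ t.2.1} ∈ l := by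
    intro n
    refine ⟨Ici n, mem_atTop n, ?_⟩
    intro t ht
    have : n ≤ min t.1 t.2.1 := ht
    exact ⟨this.trans (min_le_left _ _), this.trans (min_le_right _ _)⟩
  have hl' : ∀ (P : ℕ × ℕ × ℕ → Prop), (∀ᶠ t in l, P t) → ∃ n : ℕ, ∀ t : ℕ × ℕ × ℕ, n ≤ t.1 → n ≤ t.2.1 → P t := by
    intro P hP
    obtain ⟨s, hs, hs'⟩ := hP
    obtain ⟨n, hn⟩ := mem_atTop_sets.1 hs
    exact ⟨n, fun t h1 h2 => hs' (hn _ (le_min h1 h2))⟩
  let ν : ℕ × ℕ × ℕ → Measure X := fun t => T.M (a t.1 t.2.1 (t.2.1 + t.2.2)) (a t.1 t.2.1 (t.2.1 + t.2.2))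
  have hν : ∀ t, IsFiniteMeasure (ν t) := fun t =>
    T.fin _ (ha t.1 t.2.1 _ (Nat.le_add_right _ _)).1 _ (ha t.1 t.2.1 _ (Nat.le_add_right _ _)).1
  have hw : ∀ h : X → ℝ, Continuous h → Tendsto (fun t => ∫ x, h x ∂ν t) l (𝓝 (∫ x, h x ∂μ)) := by
    intro h hh
    rw [Metric.tendsto_nhds]
    intro ε hε
    obtain ⟨n0, hn0⟩ := hconv h hh (ε / 2) (half_pos hε)
    filter_upwards [hl n0] with t ht
    rw [Real.dist_eq]
    have := hn0 t.1 ht.1 t.2.1 ht.2 (t.2.1 + t.2.2) (Nat.le_add_right _ _)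
    exact lt_of_le_of_lt this (half_lt_self hε)
  obtain ⟨hcl, hop⟩ := h0 X (ℕ × ℕ × ℕ) l ν μ hν cd.fin hw
  have hFcl : IsClosed {x | D x ≤ r} := isClosed_le hDc continuous_const
  have hUop : IsOpen {x | D x < r} := isOpen_lt hDc continuous_const
  obtain ⟨n1, hn1⟩ := hl' _ (hcl _ hFcl δ hδ)
  obtain ⟨n2, hn2⟩ := hl' _ (hop _ hUop δ hδ)
  obtain ⟨n3, hn3⟩ := exists_nat_ge ((2 * cd.c + 4 * T.V) / T.V)
  refine ⟨max (max n1 n2) (max n3 1), ?_⟩
  intro N hN
  have hN1 : n1 ≤ N := le_trans (le_trans (le_max_left _ _) (le_max_left _ _)) hN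
  have hN2 : n2 ≤ N := le_trans (le_trans (le_max_right _ _) (le_max_left _ _)) hN
  have hN3 : n3 ≤ N := le_trans (le_trans (le_max_left _ _) (le_max_right _ _)) hN
  have hN4 : 1 ≤ N := le_trans (le_trans (le_max_right _ _) (le_max_right _ _)) hN
  have hNr : (1 : ℝ) ≤ N := by exact_mod_cast hN4
  have hNc : 2 * cd.c + 4 * T.V ≤ N * T.V := by
    have : (2 * cd.c + 4 * T.V) / T.V ≤ N := hn3.trans (by exact_mod_cast hN3)
    rwa [div_le_iff₀ hVpos] at this
  obtain ⟨j1, hj1⟩ := h6 X T φ μ cd hD f hf hdec hf0 N (by linarith) δ hδ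
  refine ⟨max (max n1 n2) j1, ?_⟩
  intro j hj j' hj'
  have hjn1 : n1 ≤ j := le_trans (le_trans (le_max_left _ _) (le_max_left _ _)) hj
  have hjn2 : n2 ≤ j := le_trans (le_trans (le_max_right _ _) (le_max_left _ _)) hj
  have hjj1 : j1 ≤ j := le_trans (le_max_right _ _) hj
  obtain ⟨haC, hage, haoff, hale, hazero⟩ := ha N j j' hj'
  obtain ⟨k, rfl⟩ := Nat.exists_eq_add_of_le hj'
  have hcl' := hn1 (N, j, k) hN1 hjn1
  have hop' := hn2 (N, j, k) hN2 hjn2
  simp only [ν] at hcl' hop'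
  set b : X → ℝ := a N j (j + k) with hb
  have hbfin := T.fin b haC b haC
  have hbc : Continuous b := T.cont b haC
  have hfc : Continuous (f j) := T.cont _ (hf j)
  have hb0 : ∀ x, b x ≤ 0 := by
    intro x
    by_cases hx : x ∈ {x | D x < r}
    · exact (hale x hx).trans (max_le (hf0 j x) (by linarith))
    · rw [haoff x hx]; exact hf0 _ x
  refine ⟨b, haC, hage, fun x hx => haoff x hx, hcl', ?_⟩
  -- pieces
  set P0 : Set X := {x | x ∈ {x | D x < r} ∧ b x < max (f j x) (-(N : ℝ))} with hP0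
  set U1 : Set X := {x | D x < r} ∩ {x | -(N : ℝ) < f j x} with hU1
  set P1 : Set X := U1 ∩ {x | b x = f j x} with hP1
  set P2 : Set X := {x | b x = -(N : ℝ) ∧ cd.S x ≤ Real.exp (-2 * (A * N))} with hP2
  set P3 : Set X := {x | D x ≤ r ∧ f j x ≤ -(N : ℝ) ∧ Real.exp (-2 * (A * N)) ≤ cd.S x} with hP3
  have hU1o : IsOpen U1 := hUop.inter (isOpen_lt continuous_const hfc)
  have hP1m : MeasurableSet P1 := hU1o.measurableSet.inter (isClosed_eq hbc hfc).measurableSet
  have hcover : {x | D x < r} ⊆ P0 ∪ P1 ∪ P2 ∪ P3 := by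
    intro x hx
    have hxr : D x < r := hx
    by_cases h1 : b x < max (f j x) (-(N : ℝ))
    · exact Or.inl (Or.inl (Or.inl ⟨hx, h1⟩))
    · have h2 : b x = max (f j x) (-(N : ℝ)) := le_antisymm (hale x hx) (not_lt.1 h1)
      by_cases h3 : -(N : ℝ) < f j x
      · refine Or.inl (Or.inl (Or.inr ⟨⟨hx, h3⟩, ?_⟩))
        show b x = f j x
        rw [h2, max_eq_left h3.le]
      · have h4 : f j x ≤ -(N : ℝ) := not_lt.1 h3
        have h5 : b x = -(N : ℝ) := by rw [h2, max_eq_right h4]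
        rcases le_total (cd.S x) (Real.exp (-2 * (A * N))) with h6 | h6
        · exact Or.inl (Or.inr ⟨h5, h6⟩)
        · exact Or.inr ⟨hxr.le, h4, h6⟩
  have m0 : (T.M b b).real P0 = 0 := by
    have : T.M b b P0 = 0 := hazero
    simp [Measure.real, this]
  have m1 : (T.M b b).real P1 ≤ δ := by
    have hcon := (h3 X T b haC (f j) (hf j)).2 U1 hU1o (fun x hx => ?_) P1 hP1m (fun x hx => hx.1) (fun x hx => hx.2)
    · refine hcon.trans (le_trans ?_ (hj1 j hjj1))
      have := T.fin (f j) (hf j) (f j) (hf j)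
      exact measureReal_mono (fun x hx => hx.1.2)
    · have := hale x hx.1
      rwa [max_eq_left (le_of_lt (show -(N : ℝ) < f j x from hx.2))] at this
  have m2 : (T.M b b).real P2 ≤ 5 * T.V / A :=
    F9_near h5 X T μ cd b haC hb0 N A hNr hA hNc
  have m3 : (T.M b b).real {x | D x < r} ≤ (T.M b b).real P0 + (T.M b b).real P1 + (T.M b b).real P2 + (T.M b b).real P3 := by
    refine (measureReal_mono hcover).trans ?_
    refine (measureReal_union_le _ _).trans ?_
    gcongr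
    refine (measureReal_union_le _ _).trans ?_
    gcongr
    exact measureReal_union_le _ _
  have hop'' : μ.real {x | D x < r} - δ ≤ (T.M b b).real {x | D x < r} := hop'
  show μ.real {x | D x < r} - 3 * δ - 5 * T.V / A ≤ (T.M b b).real P3
  linarith

end

end MAP
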